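import Pool.Agent.Helper36.CV.StmtsD

/-!
MP_e5aeaf_mp, module D3s: the summation lemma.
-/

set_option autoImplicit false

namespace Pool.Agent.Helper36.CV

open Finset

noncomputable section

/-! ### constants -/

theorem d3s_s5 : 2236 / 1000 < Real.sqrt 5 ∧ Real.sqrt 5 < 22361 / 10000 := by
  constructor
  · exact Real.lt_sqrt_of_sq_lt (by norm_num)
  · rw [Real.sqrt_lt' (by norm_num)]
    norm_num

theorem d3s_gam : 618 / 1000 < gam ∧ gam < 61805 / 100000 := by
  have := d3s_s5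
  unfold gam
  constructor <;> linarith [this.1, this.2]

theorem d3s_gam2 : gam ^ 2 = 1 - gam := by
  unfold gam
  have h : Real.sqrt 5 ^ 2 = 5 := Real.sq_sqrt (by norm_num)
  linear_combination h / 4

theorem d3s_phi : phi = 1 + gam := by
  unfold phi gam
  ring

theorem d3s_gp : gam * phi = 1 := by
  rw [d3s_phi]
  linear_combination d3s_gam2

theorem d3s_s5eq : Real.sqrt 5 = phi + gam := by
  unfold phi gam
  ring

theorem d3s_gpos : 0 < gam := lt_trans (by norm_num) d3s_gam.1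

theorem d3s_g1 : gam < 1 := d3s_gam.2.trans (by norm_num)

/-! ### distance to the nearest integer -/

theorem d3s_dz_le (x : ℝ) (n : ℤ) : dz x ≤ |x - n| := round_le x n

theorem d3s_dz_nonneg (x : ℝ) : 0 ≤ dz x := abs_nonneg _

theorem d3s_dz_half (x : ℝ) : dz x ≤ 1 / 2 := abs_sub_round x

theorem d3s_dz_add (x y : ℝ) : dz (x + y) ≤ dz x + dz y := by
  have h := d3s_dz_le (x + y) (round x + round y)
  have h2 : |x + y - ((round x + round y : ℤ) : ℝ)| ≤ |x - round x| + |y - round y| := by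
    push_cast
    have e : x + y - ((round x : ℝ) + (round y : ℝ)) = (x - round x) + (y - round y) := by ring
    rw [e]
    exact abs_add_le _ _
  exact h.trans h2

theorem d3s_dz_sub (x y : ℝ) : dz (x - y) ≤ dz x + dz y := by
  have h := d3s_dz_le (x - y) (round x - round y)
  have h2 : |x - y - ((round x - round y : ℤ) : ℝ)| ≤ |x - round x| + |y - round y| := by
    push_cast
    have e : x - y - ((round x : ℝ) - (round y : ℝ)) = (x - round x) - (y - round y) := by ring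
    rw [e]
    exact abs_sub _ _
  exact h.trans h2

/-- comparison modulo one -/
theorem d3s_dz_lip (x y e : ℝ) (n : ℤ) (h : x = y + n + e) : dz y ≤ dz x + |e| := by
  have h1 := d3s_dz_le y (round x - n)
  have h2 : |y - ((round x - n : ℤ) : ℝ)| ≤ |x - round x| + |e| := by
    push_cast
    have e1 : y - ((round x : ℝ) - (n : ℝ)) = (x - round x) - e := by rw [h]; ring
    rw [e1]
    exact abs_sub _ _
  exact h1.trans h2

/-- comparison modulo one with a change of sign -/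
theorem d3s_dz_lip' (x y e : ℝ) (n : ℤ) (h : x = -y + n + e) : dz y ≤ dz x + |e| := by
  have h1 := d3s_dz_le y (n - round x)
  have h2 : |y - ((n - round x : ℤ) : ℝ)| ≤ |x - round x| + |e| := by
    push_cast
    have e1 : y - ((n : ℝ) - (round x : ℝ)) = -((x - round x) - e) := by rw [h]; ring
    rw [e1, abs_neg]
    exact abs_sub _ _
  exact h1.trans h2

theorem d3s_dz_small {x : ℝ} (h : |x| ≤ 1 / 2) : dz x = |x| := by
  apply le_antisymm
  · have := d3s_dz_le x 0
    simpa using this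
  · unfold dz
    by_cases h0 : round x = 0
    · rw [h0]
      simp
    · have h1 : (1 : ℝ) ≤ |((round x : ℤ) : ℝ)| := by
        rw [← Int.cast_abs]
        exact_mod_cast Int.one_le_abs h0
      have h2 : |((round x : ℤ) : ℝ)| ≤ |x - round x| + |x| := by
        have e : ((round x : ℤ) : ℝ) = x - (x - round x) := by ring
        calc |((round x : ℤ) : ℝ)| = |x - (x - round x)| := by rw [← e]
          _ ≤ |x| + |x - round x| := abs_sub _ _
          _ = _ := add_comm _ _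
      linarith

/-- the golden ratio is badly approximable -/
theorem d3s_eta {n : ℤ} (hn : n ≠ 0) : 1 ≤ dz (gam * n) * (Real.sqrt 5 * |(n : ℝ)| + 1 / 2) := by
  set n' := round (gam * n) with hn'
  have h1 : ((n' : ℝ) - gam * n) * ((n' : ℝ) + phi * n) = ((n' ^ 2 + n' * n - n ^ 2 : ℤ) : ℝ) := by
    push_cast
    have e1 := d3s_gp
    have e2 := d3s_phi
    linear_combination (-(n : ℝ) ^ 2) * e1 + (n' : ℝ) * n * e2
  have h2 : n' ^ 2 + n' * n - n ^ 2 ≠ 0 := by
    intro h0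
    have h3 : (2 * n' + n) ^ 2 = 5 * n ^ 2 := by linear_combination 4 * h0
    have hnR : (n : ℝ) ≠ 0 := by exact_mod_cast hn
    have h4 : Real.sqrt 5 = |((2 * n' + n : ℤ) : ℝ) / n| := by
      rw [← Real.sqrt_sq_eq_abs]
      congr 1
      rw [div_pow, eq_div_iff (pow_ne_zero 2 hnR)]
      exact_mod_cast h3.symm
    have h5 : Irrational (Real.sqrt 5) := by
      have := Nat.Prime.irrational_sqrt (show Nat.Prime 5 by norm_num)
      simpa using this
    apply h5
    refine ⟨|((2 * n' + n : ℤ) : ℚ) / n|, ?_⟩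
    rw [h4]
    push_cast
    rfl
  have h3 : (1 : ℝ) ≤ |((n' : ℝ) - gam * n) * ((n' : ℝ) + phi * n)| := by
    rw [h1, ← Int.cast_abs]
    exact_mod_cast Int.one_le_abs h2
  rw [abs_mul] at h3
  have h4 : |(n' : ℝ) - gam * n| = dz (gam * n) := by
    rw [abs_sub_comm]
    rfl
  have h5 : |(n' : ℝ) + phi * n| ≤ Real.sqrt 5 * |(n : ℝ)| + 1 / 2 := by
    have e : (n' : ℝ) + phi * n = ((n' : ℝ) - gam * n) + Real.sqrt 5 * n := by
      rw [d3s_s5eq]
      ring
    rw [e]
    refine (abs_add_le _ _).trans ?_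
    rw [abs_mul, abs_of_nonneg (Real.sqrt_nonneg 5), h4]
    have := d3s_dz_half (gam * n)
    linarith
  rw [h4] at h3
  exact h3.trans (mul_le_mul_of_nonneg_left h5 (d3s_dz_nonneg _))

/-! ### three abstract estimates -/

theorem d3s_core {d Su Sv Sw du dv dw M t : ℝ} (ht : 0 < t) (htM : t ≤ 19 / 100 * M) (hd : 0 ≤ d)
    (hv2 : 2 * t ≤ dv) (hw2 : 2 * t ≤ dw) (hM : M ≤ du) (htri : du ≤ dv + dw)
    (hSu : 2 * (du - 11 / 10 * t) ≤ Su) (hSv : 2 * (dv - 11 / 10 * t) ≤ Sv)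
    (hSw : 2 * (dw - 11 / 10 * t) ≤ Sw)
    (h : d * (Su - 51 / 100 * t) * (8 * Sv * Sw) ≤ 101 / 100 * t ^ 4) : d * M ^ 2 ≤ 82 / 1000 * t ^ 3 := by
  have hMpos : 0 < M := by
    have : 0 < 19 / 100 * M := lt_of_lt_of_le ht htM
    linarith
  have h1 : 14851 / 10000 * M ≤ Su - 51 / 100 * t := by linarith
  have h2 : 582 / 1000 * M * (18 / 10 * t) ≤ Sv * Sw := by
    rcases le_total dv dw with hvw | hvw
    · have a1 : 582 / 1000 * M ≤ Sw := by linarith
      have a2 : 18 / 10 * t ≤ Sv := by linarith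
      have := mul_le_mul a1 a2 (by positivity) (le_trans (by positivity) a1)
      linarith
    · have a1 : 582 / 1000 * M ≤ Sv := by linarith
      have a2 : 18 / 10 * t ≤ Sw := by linarith
      have := mul_le_mul a1 a2 (by positivity) (le_trans (by positivity) a1)
      linarith
  have h3 : 14851 / 10000 * M * (8 * (582 / 1000 * M * (18 / 10 * t))) ≤ (Su - 51 / 100 * t) * (8 * Sv * Sw) := by
    have := mul_le_mul h1 (mul_le_mul_of_nonneg_left h2 (by norm_num : (0 : ℝ) ≤ 8)) (by positivity)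
      (le_trans (by positivity) h1)
    linarith
  have h4 := mul_le_mul_of_nonneg_left h3 hd
  have h5 : d * (14851 / 10000 * M * (8 * (582 / 1000 * M * (18 / 10 * t)))) ≤ 101 / 100 * t ^ 4 := by
    refine h4.trans (le_trans (le_of_eq ?_) h)
    ring
  have h6 : (d * M ^ 2) * t ≤ (82 / 1000 * t ^ 3) * t := by
    have e1 : d * (14851 / 10000 * M * (8 * (582 / 1000 * M * (18 / 10 * t)))) =
      (14851 / 10000 * 8 * (582 / 1000) * (18 / 10)) * ((d * M ^ 2) * t) := by ring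
    rw [e1] at h5
    have h7 : 0 ≤ (d * M ^ 2) * t := by positivity
    have h8 : 0 ≤ t ^ 4 := by positivity
    nlinarith
  exact le_of_mul_le_mul_right h6 ht

theorem d3s_small {d Su Sv Sw g t : ℝ} (ht : 0 < t) (hg : 0 < g) (htg : t ≤ g / 100) (hd : 0 ≤ d)
    (hSu : 2 * (g - 11 / 10 * t) ≤ Su) (hSv : 2 * (618 / 1000 * g - 11 / 10 * t) ≤ Sv)
    (hSw : 2 * (38 / 100 * g - 11 / 10 * t) ≤ Sw)
    (h : d * (Su - 51 / 100 * t) * (8 * Sv * Sw) ≤ 101 / 100 * t ^ 4) : d * g ^ 3 ≤ 9 / 100 * t ^ 4 := by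
  have h1 : 185 / 100 * g ≤ Su - 51 / 100 * t := by linarith
  have h2 : 11 / 10 * g ≤ Sv := by linarith
  have h3 : 7 / 10 * g ≤ Sw := by linarith
  have h4 : 11 / 10 * g * (7 / 10 * g) ≤ Sv * Sw := mul_le_mul h2 h3 (by positivity) (le_trans (by positivity) h2)
  have h5 : 185 / 100 * g * (8 * (11 / 10 * g * (7 / 10 * g))) ≤ (Su - 51 / 100 * t) * (8 * (Sv * Sw)) :=
    mul_le_mul h1 (mul_le_mul_of_nonneg_left h4 (by norm_num)) (by positivity) (le_trans (by positivity) h1)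
  have h6 := mul_le_mul_of_nonneg_left h5 hd
  have h7 : d * (185 / 100 * g * (8 * (11 / 10 * g * (7 / 10 * g)))) ≤ 101 / 100 * t ^ 4 := by
    refine h6.trans (le_trans (le_of_eq ?_) h)
    ring
  have e1 : d * (185 / 100 * g * (8 * (11 / 10 * g * (7 / 10 * g)))) =
    (185 / 100 * 8 * (11 / 10) * (7 / 10)) * (d * g ^ 3) := by ring
  rw [e1] at h7
  have h8 : 0 ≤ t ^ 4 := by positivity
  nlinarith

theorem d3s_bad {d S e t k c q : ℝ} (hd : 0 ≤ d) (hte : t ≤ c * e) (he : 0 ≤ e) (hk : 0 ≤ k)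
    (hS : 2 * (e - k * t - 11 / 10 * t) ≤ S) (hq : q ≤ 2 - (2 * k + 271 / 100) * c)
    (h : d * (S - 51 / 100 * t) ≤ 502 / 1000 * t ^ 2) : d * e * q ≤ 502 / 1000 * t ^ 2 := by
  have h1 : e * q ≤ S - 51 / 100 * t := by
    have a1 := mul_le_mul_of_nonneg_left hq he
    have a2 := mul_le_mul_of_nonneg_left hte (by positivity : 0 ≤ 2 * k + 271 / 100)
    nlinarith
  have h2 := mul_le_mul_of_nonneg_left h1 hd
  calc d * e * q = d * (e * q) := by ring
    _ ≤ d * (S - 51 / 100 * t) := h2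
    _ ≤ _ := h

/-! ### sums -/

theorem d3s_sum_ite {s : Finset ℕ} {p : ℕ → Prop} [DecidablePred p] {c : ℝ} (hc : 0 ≤ c)
    (hp : ∀ i j, p i → p j → i = j) : ∑ j ∈ s, (if p j then c else 0) ≤ c := by
  rw [← sum_filter, sum_const, nsmul_eq_mul]
  have h : (s.filter p).card ≤ 1 := by
    rw [card_le_one]
    intro a ha b hb
    rw [mem_filter] at ha hb
    exact hp a b ha.2 hb.2
  have h1 : ((s.filter p).card : ℝ) ≤ 1 := by exact_mod_cast h
  calc ((s.filter p).card : ℝ) * c ≤ 1 * c := mul_le_mul_of_nonneg_right h1 hc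
    _ = c := one_mul c

theorem d3s_tele (N : ℕ) (P : ℕ → ℝ) : ∑ j ∈ Icc 1 N, (P j - P (j - 1)) = P N - P 0 := by
  induction N with
  | zero => simp
  | succ N ih =>
    rw [sum_Icc_succ_top (by omega), ih]
    simp

theorem d3s_tele' (N : ℕ) (P : ℕ → ℝ) : ∑ j ∈ Icc 1 N, (P j - P (j + 1)) = P 1 - P (N + 1) := by
  induction N with
  | zero => simp
  | succ N ih =>
    rw [sum_Icc_succ_top (by omega), ih]
    ring

/-- the near terms of the first kind -/
theorem d3s_sumB {B K : ℝ} (hB : 0 < B) (hK : 0 < K) (N : ℕ) :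
    ∑ j ∈ Icc 1 N, (if B * gam ^ j < K then B * gam ^ j else 0) ≤ 26181 / 10000 * K := by
  have g0 := d3s_gpos
  have g1 := d3s_g1
  have step : ∀ j, (if B * gam ^ j < K then B * gam ^ j else 0) ≤
      phi ^ 2 * (min (B * gam ^ j) K - min (B * gam ^ (j + 1)) K) := by
    intro j
    have hpos : 0 < B * gam ^ j := by positivity
    have hlt : B * gam ^ (j + 1) < B * gam ^ j := by
      rw [pow_succ, ← mul_assoc]
      calc B * gam ^ j * gam < B * gam ^ j * 1 := mul_lt_mul_of_pos_left g1 hpos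
        _ = _ := mul_one _
    split_ifs with h
    · rw [min_eq_left h.le, min_eq_left (hlt.le.trans h.le)]
      have e : phi ^ 2 * (B * gam ^ j - B * gam ^ (j + 1)) = B * gam ^ j := by
        have e1 := d3s_gp
        have e2 := d3s_gam2
        have e3 := d3s_phi
        rw [pow_succ]
        have e4 : phi ^ 2 * (1 - gam) = 1 := by
          rw [← e2]
          have : phi ^ 2 * gam ^ 2 = (gam * phi) ^ 2 := by ring
          rw [this, e1, one_pow]
        linear_combination (B * gam ^ j) * e4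
      rw [e]
    · have : min (B * gam ^ (j + 1)) K ≤ min (B * gam ^ j) K := min_le_min hlt.le le_rfl
      have h2 : 0 ≤ phi ^ 2 := sq_nonneg _
      exact mul_nonneg h2 (by linarith)
  refine (sum_le_sum fun j _ => step j).trans ?_
  rw [← mul_sum, d3s_tele' N (fun j => min (B * gam ^ j) K)]
  have h1 : min (B * gam ^ 1) K ≤ K := min_le_right _ _
  have h2 : 0 ≤ min (B * gam ^ (N + 1)) K := le_min (by positivity) hK.le
  have h3 : phi ^ 2 ≤ 26181 / 10000 := by
    have := d3s_gam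
    have e := d3s_gam2
    rw [d3s_phi]
    nlinarith
  have h4 : 0 ≤ phi ^ 2 := sq_nonneg _
  calc phi ^ 2 * (min (B * gam ^ 1) K - min (B * gam ^ (N + 1)) K) ≤ phi ^ 2 * K :=
        mul_le_mul_of_nonneg_left (by linarith) h4
    _ ≤ _ := mul_le_mul_of_nonneg_right h3 hK.le

/-- the far terms -/
theorem d3s_sumA {B K : ℝ} (hB : 0 < B) (hK : 0 < K) (N : ℕ) :
    ∑ j ∈ Icc 1 N, (if B * gam ^ j < K then 0 else (1 + gam ^ (2 * j)) / (B * gam ^ j)) ≤ 26181 / 10000 / K := by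
  have g0 := d3s_gpos
  have g1 := d3s_g1
  have h3 : phi ^ 2 ≤ 26181 / 10000 := by
    have := d3s_gam
    have e := d3s_gam2
    rw [d3s_phi]
    nlinarith
  have hphi : 0 < phi := by
    rw [d3s_phi]
    linarith
  have hphi2 : phi ≤ phi ^ 2 := by
    rw [d3s_phi]
    nlinarith
  set P : ℕ → ℝ := fun j => (1 - gam ^ j) * (phi ^ 2 + phi * gam ^ j) / (B * gam ^ j) with hP
  have hPnn : ∀ j, 0 ≤ P j := by
    intro j
    have a1 : gam ^ j ≤ 1 := pow_le_one₀ g0.le g1.le
    have a2 : 0 ≤ 1 - gam ^ j := by linarith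
    have a3 : 0 < gam ^ j := by positivity
    show 0 ≤ (1 - gam ^ j) * (phi ^ 2 + phi * gam ^ j) / (B * gam ^ j)
    positivity
  have hPle : ∀ j, P j ≤ phi ^ 2 / (B * gam ^ j) := by
    intro j
    have a3 : 0 < gam ^ j := by positivity
    have a1 : gam ^ j ≤ 1 := pow_le_one₀ g0.le g1.le
    refine div_le_div_of_nonneg_right ?_ (by positivity)
    nlinarith [mul_nonneg a3.le (sub_nonneg.2 hphi2), mul_pos hphi (mul_pos a3 a3)]
  have hPstep : ∀ j, 1 ≤ j → P j - P (j - 1) = (1 + gam ^ (2 * j)) / (B * gam ^ j) := by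
    intro j hj
    obtain ⟨i, rfl⟩ : ∃ i, j = i + 1 := ⟨j - 1, by omega⟩
    show (1 - gam ^ (i + 1)) * (phi ^ 2 + phi * gam ^ (i + 1)) / (B * gam ^ (i + 1)) -
      (1 - gam ^ (i + 1 - 1)) * (phi ^ 2 + phi * gam ^ (i + 1 - 1)) / (B * gam ^ (i + 1 - 1)) = _
    rw [Nat.add_sub_cancel]
    have a3 : gam ^ i ≠ 0 := by positivity
    have hBne := hB.ne'
    have hgne := g0.ne'
    rw [pow_succ, pow_mul, pow_succ (gam ^ 2)]
    set q := gam ^ i with hq
    have hq2 : (gam ^ 2) ^ i = q ^ 2 := by rw [hq, ← pow_mul, ← pow_mul, mul_comm]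
    rw [hq2]
    field_simp
    have e2 := d3s_gam2
    rw [d3s_phi]
    linear_combination (-(gam * (1 + gam ^ (i * 2)))) * e2
  have step : ∀ j ∈ Icc 1 N, (if B * gam ^ j < K then 0 else (1 + gam ^ (2 * j)) / (B * gam ^ j)) ≤
      min (P j) (phi ^ 2 / K) - min (P (j - 1)) (phi ^ 2 / K) := by
    intro j hj
    rw [mem_Icc] at hj
    have hs := hPstep j hj.1
    have hmono : P (j - 1) ≤ P j := by
      have : 0 ≤ (1 + gam ^ (2 * j)) / (B * gam ^ j) := by positivity
      linarith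
    split_ifs with h
    · have := min_le_min hmono (le_refl (phi ^ 2 / K))
      linarith
    · push Not at h
      have b1 : P j ≤ phi ^ 2 / K :=
        (hPle j).trans (div_le_div_of_nonneg_left (by positivity) hK h)
      rw [min_eq_left b1, min_eq_left (hmono.trans b1), hs]
  refine (sum_le_sum step).trans ?_
  rw [d3s_tele N (fun j => min (P j) (phi ^ 2 / K))]
  have h1 : min (P N) (phi ^ 2 / K) ≤ phi ^ 2 / K := min_le_right _ _
  have h2 : 0 ≤ min (P 0) (phi ^ 2 / K) := le_min (hPnn 0) (by positivity)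
  have h4 : phi ^ 2 / K ≤ 26181 / 10000 / K := div_le_div_of_nonneg_right h3 hK.le
  linarith

/-- the terms of the third kind -/
theorem d3s_sumC {B : ℝ} (hB : 0 < B) (N : ℕ) :
    ∑ j ∈ Icc 1 N, 1 / (B * gam ^ j) ^ 4 ≤ 12 / 10 / (B * gam ^ N) ^ 4 := by
  have g0 := d3s_gpos
  induction N with
  | zero =>
    simp only [show Icc 1 0 = (∅ : Finset ℕ) by rfl, sum_empty]
    positivity
  | succ N ih =>
    rw [sum_Icc_succ_top (by omega)]
    have hp : 0 < B * gam ^ N := by positivity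
    have e1 : (B * gam ^ (N + 1)) ^ 4 = (B * gam ^ N) ^ 4 * gam ^ 4 := by
      rw [pow_succ]
      ring
    have g4 : gam ^ 4 ≤ 16 / 100 := by
      have e : gam ^ 4 = (gam ^ 2) ^ 2 := by ring
      rw [e, d3s_gam2]
      have := d3s_gam
      nlinarith
    have g4p : 0 < gam ^ 4 := by positivity
    have hq : 0 < (B * gam ^ N) ^ 4 := by positivity
    rw [e1]
    have e2 : 12 / 10 / (B * gam ^ N) ^ 4 = 12 / 10 * gam ^ 4 / ((B * gam ^ N) ^ 4 * gam ^ 4) := by
      field_simp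
    rw [e2] at ih
    refine (add_le_add_left ih _).trans ?_
    rw [← add_div]
    refine div_le_div_of_nonneg_right ?_ (by positivity)
    linarith

/-! ### bad levels -/

/-- bad level -/
def d3s_B (t : ℝ) (b : ℤ) (k : ℕ) : Prop :=
  dz (gam ^ k * b) < 2 * t ∧ 1 / 2 ≤ |(b : ℝ)| * gam ^ k ∧ t * (|(b : ℝ)| * gam ^ k) ≤ 81 / 1000

/-- distance of `gam m` -/
def d3s_e (b : ℤ) (k : ℕ) : ℝ := dz (gam * (round (gam ^ k * (b : ℝ)) : ℝ))

/-- nearest integer -/
def d3s_m (b : ℤ) (k : ℕ) : ℝ := |(round (gam ^ k * (b : ℝ)) : ℝ)|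

theorem d3s_abs (b : ℤ) (k : ℕ) : |gam ^ k * (b : ℝ)| = |(b : ℝ)| * gam ^ k := by
  rw [abs_mul, abs_of_pos (pow_pos d3s_gpos k), mul_comm]

theorem d3s_m_near {t : ℝ} {b : ℤ} {k : ℕ} (h : dz (gam ^ k * b) < 2 * t) :
    |(b : ℝ)| * gam ^ k - 2 * t ≤ d3s_m b k ∧ d3s_m b k ≤ |(b : ℝ)| * gam ^ k + 2 * t := by
  rw [← d3s_abs]
  unfold dz at h
  unfold d3s_m
  have h1 := abs_sub_abs_le_abs_sub (gam ^ k * (b : ℝ)) (round (gam ^ k * (b : ℝ)))
  have h2 := abs_sub_abs_le_abs_sub ((round (gam ^ k * (b : ℝ)) : ℤ) : ℝ) (gam ^ k * (b : ℝ))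
  rw [abs_sub_comm] at h2
  constructor <;> linarith

theorem d3s_m_one {t : ℝ} {b : ℤ} {k : ℕ} (ht : t ≤ 1 / 10000) (h : dz (gam ^ k * b) < 2 * t)
    (hg : 1 / 2 ≤ |(b : ℝ)| * gam ^ k) : round (gam ^ k * (b : ℝ)) ≠ 0 ∧ 1 ≤ d3s_m b k := by
  have h1 := (d3s_m_near h).1
  have h2 : round (gam ^ k * (b : ℝ)) ≠ 0 := by
    intro h0
    unfold d3s_m at h1
    rw [h0] at h1
    simp at h1
    linarith
  refine ⟨h2, ?_⟩
  unfold d3s_m
  rw [← Int.cast_abs]
  exact_mod_cast Int.one_le_abs h2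

theorem d3s_e_ge {t : ℝ} {b : ℤ} {k : ℕ} (ht : t ≤ 1 / 10000) (h : dz (gam ^ k * b) < 2 * t)
    (hg : 1 / 2 ≤ |(b : ℝ)| * gam ^ k) : 1 ≤ d3s_e b k * (Real.sqrt 5 * d3s_m b k + 1 / 2) :=
  d3s_eta (d3s_m_one ht h hg).1

theorem d3s_e_pos {t : ℝ} {b : ℤ} {k : ℕ} (ht : t ≤ 1 / 10000) (h : dz (gam ^ k * b) < 2 * t)
    (hg : 1 / 2 ≤ |(b : ℝ)| * gam ^ k) : 0 < d3s_e b k := by
  have h1 := d3s_e_ge ht h hg
  have h2 : 0 ≤ d3s_e b k := d3s_dz_nonneg _
  rcases h2.lt_or_eq with h3 | h3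
  · exact h3
  · rw [← h3, zero_mul] at h1
    exact absurd h1 (by norm_num)

/-- `t` is small compared with `e` -/
theorem d3s_te {t c y : ℝ} {b : ℤ} {k : ℕ} (ht0 : 0 < t) (ht : t ≤ 1 / 10000) (h : dz (gam ^ k * b) < 2 * t)
    (hg : 1 / 2 ≤ |(b : ℝ)| * gam ^ k) (hy : t * (|(b : ℝ)| * gam ^ k) ≤ y)
    (hc : 22361 / 10000 * (y + 1 / 1000000) + 1 / 10000 ≤ c) : t ≤ c * d3s_e b k := by
  have h1 := d3s_e_ge ht h hg
  have h2 := d3s_e_pos ht h hg
  have h3 := (d3s_m_near h).2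
  have h4 := (d3s_m_one ht h hg).2
  have s5 := d3s_s5
  have h5 : t * (Real.sqrt 5 * d3s_m b k + 1 / 2) ≤ c := by
    have a1 : t * d3s_m b k ≤ y + 1 / 1000000 := by
      have b1 := mul_le_mul_of_nonneg_left h3 ht0.le
      have b2 : t * (2 * t) ≤ 1 / 1000000 := by nlinarith
      nlinarith
    have a2 : Real.sqrt 5 * (t * d3s_m b k) ≤ 22361 / 10000 * (y + 1 / 1000000) :=
      mul_le_mul s5.2.le a1 (by positivity) (by norm_num)
    nlinarith
  calc t = t * 1 := (mul_one t).symm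
    _ ≤ t * (d3s_e b k * (Real.sqrt 5 * d3s_m b k + 1 / 2)) := mul_le_mul_of_nonneg_left h1 ht0.le
    _ = (t * (Real.sqrt 5 * d3s_m b k + 1 / 2)) * d3s_e b k := by ring
    _ ≤ _ := mul_le_mul_of_nonneg_right h5 h2.le

/-- neighbours of a bad level -/
theorem d3s_nb {t : ℝ} {b : ℤ} {k : ℕ} (h : dz (gam ^ k * b) < 2 * t) (ht : 0 < t) :
    d3s_e b k ≤ dz (gam ^ (k + 1) * b) + 124 / 100 * t ∧
    d3s_e b k ≤ dz (gam ^ (k + 2) * b) + 77 / 100 * t ∧
    (∀ j, k = j + 1 → d3s_e b k ≤ dz (gam ^ j * b) + 324 / 100 * t) := by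
  have hg := d3s_gam
  have g2 := d3s_gam2
  set x := gam ^ k * (b : ℝ) with hx
  set m := round x with hm
  have he : |x - m| < 2 * t := h
  refine ⟨?_, ?_, ?_⟩
  · have e1 : gam ^ (k + 1) * (b : ℝ) = gam * m + (0 : ℤ) + gam * (x - m) := by
      rw [hx, pow_succ]
      push_cast
      ring
    have := d3s_dz_lip _ _ _ _ e1
    rw [abs_mul, abs_of_pos d3s_gpos] at this
    have h2 : gam * |x - m| ≤ 124 / 100 * t := by
      have : gam * |x - m| ≤ 61805 / 100000 * (2 * t) :=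
        mul_le_mul hg.2.le he.le (abs_nonneg _) (by norm_num)
      linarith
    exact this.trans (by linarith)
  · have e1 : gam ^ (k + 2) * (b : ℝ) = -(gam * m) + (m : ℤ) + gam ^ 2 * (x - m) := by
      rw [hx, pow_add]
      have : gam ^ k * gam ^ 2 * (b : ℝ) = gam ^ 2 * (gam ^ k * (b : ℝ)) := by ring
      rw [this]
      linear_combination (m : ℝ) * g2
    have := d3s_dz_lip' _ _ _ _ e1
    rw [abs_mul, abs_of_pos (pow_pos d3s_gpos 2)] at this
    have h2 : gam ^ 2 * |x - m| ≤ 77 / 100 * t := by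
      have a1 : gam ^ 2 ≤ 382 / 1000 := by rw [g2]; linarith
      have : gam ^ 2 * |x - m| ≤ 382 / 1000 * (2 * t) :=
        mul_le_mul a1 he.le (abs_nonneg _) (by norm_num)
      linarith
    exact this.trans (by linarith)
  · intro j hj
    have e1 : gam ^ j * (b : ℝ) = gam * m + (m : ℤ) + phi * (x - m) := by
      rw [hx, hj, pow_succ]
      have e2 := d3s_gp
      have e3 := d3s_phi
      linear_combination (-(gam ^ j * (b : ℝ))) * e2 + (m : ℝ) * e3
    have := d3s_dz_lip _ _ _ _ e1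
    have hphi : 0 < phi := by rw [d3s_phi]; linarith [d3s_gpos]
    rw [abs_mul, abs_of_pos hphi] at this
    have h2 : phi * |x - m| ≤ 324 / 100 * t := by
      have a1 : phi ≤ 161805 / 100000 := by rw [d3s_phi]; linarith
      have : phi * |x - m| ≤ 161805 / 100000 * (2 * t) :=
        mul_le_mul a1 he.le (abs_nonneg _) (by norm_num)
      linarith
    exact this.trans (by linarith)

/-- sum over bad levels -/
theorem d3s_sumBad (t0 : ℝ) (h3b : ∀ (t x : ℝ) (L : ℕ), 0 < t → t ≤ t0 → 1 ≤ L →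
  t * |x| ≤ 81 / 1000 → dz x < 2 * t → dz (gam ^ L * x) < 2 * t → 1 / 2 ≤ gam ^ L * |x| →
  3 ≤ L ∧ 1 / (Nat.fib L : ℝ) - 2 * t ≤ dz (gam * x) ∧
  185 / 100 * |(round (gam ^ L * x) : ℝ)| ≤ dz (gam * (round x : ℝ)) * |x| ∧
  4 * |(round (gam ^ L * x) : ℝ)| ≤ |(round x : ℝ)|) {t : ℝ} (ht : 0 < t) (ht0 : t ≤ t0)
    (ht1 : t ≤ 1 / 10000) (b : ℤ) (s : Finset ℕ) (hs : ∀ k ∈ s, d3s_B t b k) :
    s = ∅ ∨ ∃ a ∈ s, (∀ k ∈ s, a ≤ k) ∧
      ∑ k ∈ s, 1 / (d3s_e b k * (|(b : ℝ)| * gam ^ k)) ≤ 275 / 100 + 7208 / 10000 * (1 - 1 / d3s_m b a) := by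
  revert hs
  have single : ∀ k, d3s_B t b k → 1 / (d3s_e b k * (|(b : ℝ)| * gam ^ k)) ≤ 275 / 100 := by
    intro k hk
    obtain ⟨h1, h2, h3⟩ := hk
    have a1 := d3s_e_ge ht1 h1 h2
    have a2 := d3s_e_pos ht1 h1 h2
    have a3 := (d3s_m_near h1).2
    have a4 := (d3s_m_one ht1 h1 h2).2
    have s5 := d3s_s5
    have hp : 0 < d3s_e b k * (|(b : ℝ)| * gam ^ k) := mul_pos a2 (by linarith)
    rw [div_le_iff₀ hp]
    have a5 : Real.sqrt 5 * d3s_m b k + 1 / 2 ≤ 275 / 100 * (|(b : ℝ)| * gam ^ k) := by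
      have : Real.sqrt 5 * d3s_m b k ≤ 22361 / 10000 * d3s_m b k :=
        mul_le_mul_of_nonneg_right s5.2.le (by linarith)
      linarith
    have a6 := mul_le_mul_of_nonneg_left a5 a2.le
    linarith
  refine Finset.induction_on_min s ?_ ?_
  · intro _
    exact Or.inl rfl
  · intro a s has ih hs
    right
    have hmem : ∀ k ∈ s, d3s_B t b k := fun k hk => hs k (mem_insert_of_mem hk)
    have ha := hs a (mem_insert_self a s)
    have hna : a ∉ s := fun h => lt_irrefl a (has a h)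
    refine ⟨a, mem_insert_self a s, ?_, ?_⟩
    · intro k hk
      rcases mem_insert.1 hk with rfl | hk
      · exact le_rfl
      · exact (has k hk).le
    · rw [sum_insert hna]
      have hma := (d3s_m_one ht1 ha.1 ha.2.1).2
      have hma' : 1 / d3s_m b a ≤ 1 := by
        rw [div_le_one (by linarith)]
        exact hma
      rcases ih hmem with h0 | ⟨c, hc, _, hsum⟩
      · rw [h0, sum_empty, add_zero]
        have := single a ha
        linarith
      · have hac := has c hc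
        have hbc := hmem c hc
        have hmc := (d3s_m_one ht1 hbc.1 hbc.2.1).2
        obtain ⟨L, hL⟩ : ∃ L, c = a + L := ⟨c - a, by omega⟩
        have e1 : gam ^ L * (gam ^ a * (b : ℝ)) = gam ^ c * b := by
          rw [hL, pow_add]
          ring
        have e2 : gam ^ L * |gam ^ a * (b : ℝ)| = |(b : ℝ)| * gam ^ c := by
          rw [d3s_abs, hL, pow_add]
          ring
        obtain ⟨_, _, h5, h6⟩ := h3b t (gam ^ a * b) L ht ht0 (by omega) (by rw [d3s_abs]; exact ha.2.2) ha.1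
          (by rw [e1]; exact hbc.1) (by rw [e2]; exact hbc.2.1)
        rw [e1, d3s_abs] at h5
        rw [e1] at h6
        have h5' : 185 / 100 * d3s_m b c ≤ d3s_e b a * (|(b : ℝ)| * gam ^ a) := h5
        have h6' : 4 * d3s_m b c ≤ d3s_m b a := h6
        have h7 : 1 / (d3s_e b a * (|(b : ℝ)| * gam ^ a)) ≤ 5406 / 10000 * (1 / d3s_m b c) := by
          have hp : 0 < 185 / 100 * d3s_m b c := by linarith
          have h8 := one_div_le_one_div_of_le hp h5'
          refine h8.trans ?_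
          rw [one_div, mul_inv, one_div]
          refine mul_le_mul_of_nonneg_right (by norm_num) (inv_nonneg.2 (by linarith))
        have h9 : 1 / d3s_m b a ≤ 1 / 4 * (1 / d3s_m b c) := by
          have h8 := one_div_le_one_div_of_le (by linarith : 0 < 4 * d3s_m b c) h6'
          refine h8.trans (le_of_eq ?_)
          rw [one_div, mul_inv, one_div, one_div]
        have h10 : 0 ≤ 1 / d3s_m b c := by positivity
        nlinarith

/-! ### pointwise bounds -/

theorem d3s_G {j : ℕ} (hj : 1 ≤ j) : 0 ≤ 1 + gam ^ (2 * j) ∧ 1 + gam ^ (2 * j) ≤ 1382 / 1000 := by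
  have g0 := d3s_gpos
  have g1 := d3s_g1
  have h1 : gam ^ (2 * j) ≤ gam ^ 2 := pow_le_pow_of_le_one g0.le g1.le (by omega)
  have h2 := d3s_gam2
  have h3 := d3s_gam
  refine ⟨by positivity, by linarith [h3.1]⟩

/-- the hypothesis on `d`, `S` at level `j` -/
def d3s_H (t : ℝ) (b : ℤ) (S : ℕ → ℝ) (j : ℕ) (d : ℝ) : Prop := ∀ u v w : ℕ,
    ({u, v, w} : Finset ℕ) = {j - 1, j, j + 1} →
    d * (S u - 51 / 100 * t) ≤ 502 / 1000 * t ^ 2 ∧
    d * (S u - 51 / 100 * t) * (8 * S v * S w) ≤ 101 / 100 * t ^ 4 ∧ 0 ≤ S u ∧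
    2 * (dz (gam ^ u * b) - 11 / 10 * t) ≤ S u

theorem d3s_set1 (j : ℕ) : ({j, j - 1, j + 1} : Finset ℕ) = {j - 1, j, j + 1} := by
  ext x
  simp only [mem_insert, mem_singleton]
  tauto

theorem d3s_set2 (j : ℕ) : ({j + 1, j - 1, j} : Finset ℕ) = {j - 1, j, j + 1} := by
  ext x
  simp only [mem_insert, mem_singleton]
  tauto

theorem d3s_set3 (j : ℕ) : ({j, j + 1, j - 1} : Finset ℕ) = {j - 1, j, j + 1} := by
  ext x
  simp only [mem_insert, mem_singleton]
  tauto

theorem d3s_rel {j : ℕ} (hj : 1 ≤ j) (b : ℝ) : gam ^ (j - 1) * b = gam ^ j * b + gam ^ (j + 1) * b := by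
  obtain ⟨i, rfl⟩ : ∃ i, j = i + 1 := ⟨j - 1, by omega⟩
  rw [Nat.add_sub_cancel]
  have h := d3s_gam2
  rw [pow_succ, pow_succ, pow_succ]
  linear_combination (-(gam ^ i * b)) * h

theorem d3s_pt1 (h3a : ST_D3a) {t d : ℝ} {b : ℤ} {S : ℕ → ℝ} {j : ℕ} (ht : 0 < t) (ht1 : t ≤ 1 / 10000)
    (hj : 1 ≤ j) (hd : 0 ≤ d) (hH : d3s_H t b S j d) (hg : 1 / 2 ≤ |(b : ℝ)| * gam ^ j)
    (hn : t * (|(b : ℝ)| * gam ^ j) < 1 / 20) (h0 : 2 * t ≤ dz (gam ^ (j - 1) * b))
    (h1 : 2 * t ≤ dz (gam ^ j * b)) (h2 : 2 * t ≤ dz (gam ^ (j + 1) * b)) :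
    (1 + gam ^ (2 * j)) * d / (|(b : ℝ)| * gam ^ j) ≤ 1106 / 100 * t ^ 3 * (|(b : ℝ)| * gam ^ j) := by
  obtain ⟨G0, G1⟩ := d3s_G hj
  set g := |(b : ℝ)| * gam ^ j with hgd
  have gp : 0 < g := by linarith
  have s5 := d3s_s5
  have hgam := d3s_gam
  set M := gam / (Real.sqrt 5 * g + 193 / 100) with hM
  have den : 0 < Real.sqrt 5 * g + 193 / 100 := by positivity
  have hmax : M ≤ max (dz (gam ^ j * b)) (dz (gam ^ (j + 1) * b)) := by
    have := h3a (gam ^ j * b) (by rw [d3s_abs]; exact hg)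
    rw [d3s_abs] at this
    have e : gam * (gam ^ j * (b : ℝ)) = gam ^ (j + 1) * b := by
      rw [pow_succ]
      ring
    rw [e] at this
    exact this
  have Mpos : 0 < M := div_pos d3s_gpos den
  have htM : t ≤ 19 / 100 * M := by
    rw [hM, ← mul_div_assoc, le_div_iff₀ den]
    have a1 : Real.sqrt 5 * (t * g) ≤ 22361 / 10000 * (1 / 20) :=
      mul_le_mul s5.2.le hn.le (by positivity) (by norm_num)
    have e : t * (Real.sqrt 5 * g + 193 / 100) = Real.sqrt 5 * (t * g) + 193 / 100 * t := by ring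
    rw [e]
    linarith
  have rel := d3s_rel hj (b : ℝ)
  have t0 : dz (gam ^ (j - 1) * b) ≤ dz (gam ^ j * b) + dz (gam ^ (j + 1) * b) := by
    rw [rel]
    exact d3s_dz_add _ _
  have t1 : dz (gam ^ j * b) ≤ dz (gam ^ (j - 1) * b) + dz (gam ^ (j + 1) * b) := by
    have e : gam ^ j * (b : ℝ) = gam ^ (j - 1) * b - gam ^ (j + 1) * b := by rw [rel]; ring
    rw [e]
    exact d3s_dz_sub _ _
  have t2 : dz (gam ^ (j + 1) * b) ≤ dz (gam ^ (j - 1) * b) + dz (gam ^ j * b) := by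
    have e : gam ^ (j + 1) * (b : ℝ) = gam ^ (j - 1) * b - gam ^ j * b := by rw [rel]; ring
    rw [e]
    exact d3s_dz_sub _ _
  have H0 := hH (j - 1) j (j + 1) rfl
  have H1 := hH j (j - 1) (j + 1) (d3s_set1 j)
  have H2 := hH (j + 1) (j - 1) j (d3s_set2 j)
  have key : d * M ^ 2 ≤ 82 / 1000 * t ^ 3 := by
    rcases le_total (dz (gam ^ j * b)) (dz (gam ^ (j + 1) * b)) with c1 | c1
    · rw [max_eq_right c1] at hmax
      rcases le_total (dz (gam ^ (j - 1) * b)) (dz (gam ^ (j + 1) * b)) with c2 | c2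
      · exact d3s_core ht htM hd h0 h1 hmax t2 H2.2.2.2 H0.2.2.2 H1.2.2.2 H2.2.1
      · exact d3s_core ht htM hd h1 h2 (hmax.trans c2) t0 H0.2.2.2 H1.2.2.2 H2.2.2.2 H0.2.1
    · rw [max_eq_left c1] at hmax
      rcases le_total (dz (gam ^ (j - 1) * b)) (dz (gam ^ j * b)) with c2 | c2
      · exact d3s_core ht htM hd h0 h2 hmax t1 H1.2.2.2 H0.2.2.2 H2.2.2.2 H1.2.1
      · exact d3s_core ht htM hd h1 h2 (hmax.trans c2) t0 H0.2.2.2 H1.2.2.2 H2.2.2.2 H0.2.1
  have hMg : 1 ≤ 987 / 100 * (M * g) := by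
    have e : 987 / 100 * (M * g) = (987 / 100 * (gam * g)) / (Real.sqrt 5 * g + 193 / 100) := by
      rw [hM]
      ring
    rw [e, le_div_iff₀ den]
    have a1 : Real.sqrt 5 * g ≤ 22361 / 10000 * g := mul_le_mul_of_nonneg_right s5.2.le gp.le
    have a2 : 618 / 1000 * g ≤ gam * g := mul_le_mul_of_nonneg_right hgam.1.le gp.le
    linarith
  have hd2 : d ≤ 8 * t ^ 3 * g ^ 2 := by
    have a1 : 1 ≤ (987 / 100 * (M * g)) ^ 2 := one_le_pow₀ hMg
    have a2 := mul_le_mul_of_nonneg_left a1 hd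
    have a3 := mul_le_mul_of_nonneg_right key (by positivity : 0 ≤ (987 / 100) ^ 2 * g ^ 2)
    have e : d * (987 / 100 * (M * g)) ^ 2 = d * M ^ 2 * ((987 / 100) ^ 2 * g ^ 2) := by ring
    rw [e, mul_one] at a2
    have a4 : 0 ≤ t ^ 3 * g ^ 2 := by positivity
    have a5 : 82 / 1000 * (987 / 100) ^ 2 * (t ^ 3 * g ^ 2) ≤ 8 * (t ^ 3 * g ^ 2) :=
      mul_le_mul_of_nonneg_right (by norm_num) a4
    have e5 : 82 / 1000 * t ^ 3 * ((987 / 100) ^ 2 * g ^ 2) = 82 / 1000 * (987 / 100) ^ 2 * (t ^ 3 * g ^ 2) := by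
      ring
    have e6 : 8 * t ^ 3 * g ^ 2 = 8 * (t ^ 3 * g ^ 2) := by ring
    rw [e5] at a3
    rw [e6]
    exact (a2.trans a3).trans a5
  rw [div_le_iff₀ gp]
  have a5 := mul_le_mul G1 hd2 hd (by norm_num)
  have a6 : 0 ≤ t ^ 3 * g ^ 2 := by positivity
  have a7 : 1382 / 1000 * 8 * (t ^ 3 * g ^ 2) ≤ 1106 / 100 * (t ^ 3 * g ^ 2) :=
    mul_le_mul_of_nonneg_right (by norm_num) a6
  calc (1 + gam ^ (2 * j)) * d ≤ 1382 / 1000 * (8 * t ^ 3 * g ^ 2) := a5
    _ = 1382 / 1000 * 8 * (t ^ 3 * g ^ 2) := by ring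
    _ ≤ 1106 / 100 * (t ^ 3 * g ^ 2) := a7
    _ = _ := by ring

theorem d3s_pt2 {t d : ℝ} {b : ℤ} {S : ℕ → ℝ} {j : ℕ} (ht : 0 < t)
    (hj : 1 ≤ j) (hd : 0 ≤ d) (hH : d3s_H t b S j d) (hg : |(b : ℝ)| * gam ^ j < 1 / 2)
    (htg : t ≤ |(b : ℝ)| * gam ^ j / 100) :
    (1 + gam ^ (2 * j)) * d / (|(b : ℝ)| * gam ^ j) ≤ 13 / 100 * t ^ 4 * (1 / (|(b : ℝ)| * gam ^ j) ^ 4) := by
  obtain ⟨G0, G1⟩ := d3s_G hj
  have hgam := d3s_gam
  have g0 := d3s_gpos
  have d1 : dz (gam ^ j * b) = |(b : ℝ)| * gam ^ j := by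
    rw [d3s_dz_small (by rw [d3s_abs]; exact hg.le), d3s_abs]
  have e2 : |(b : ℝ)| * gam ^ (j + 1) = gam * (|(b : ℝ)| * gam ^ j) := by
    rw [pow_succ]
    ring
  have gp : 0 < |(b : ℝ)| * gam ^ j := by linarith
  have d2 : dz (gam ^ (j + 1) * b) = gam * (|(b : ℝ)| * gam ^ j) := by
    rw [d3s_dz_small (by rw [d3s_abs, e2]; exact (mul_le_of_le_one_left gp.le d3s_g1.le).trans hg.le), d3s_abs, e2]
  have e0 : |(b : ℝ)| * gam ^ (j - 1) = phi * (|(b : ℝ)| * gam ^ j) := by
    obtain ⟨i, rfl⟩ : ∃ i, j = i + 1 := ⟨j - 1, by omega⟩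
    rw [Nat.add_sub_cancel, pow_succ]
    linear_combination (-(|(b : ℝ)| * gam ^ i)) * d3s_gp
  have hphi : phi < 161805 / 100000 ∧ 1618 / 1000 < phi := by
    rw [d3s_phi]
    constructor <;> linarith
  set g := |(b : ℝ)| * gam ^ j with hgd
  have d0 : 38 / 100 * g ≤ dz (gam ^ (j - 1) * b) := by
    rcases le_or_gt (|(b : ℝ)| * gam ^ (j - 1)) (1 / 2) with h | h
    · rw [d3s_dz_small (by rw [d3s_abs]; exact h), d3s_abs, e0]
      exact mul_le_mul_of_nonneg_right (by linarith) gp.le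
    · -- the nearest integer has modulus at least one
      have hup : |(b : ℝ)| * gam ^ (j - 1) ≤ 81 / 100 := by
        rw [e0]
        have := mul_le_mul hphi.1.le hg.le gp.le (by norm_num)
        linarith
      have a1 : 19 / 100 ≤ dz (gam ^ (j - 1) * b) := by
        by_contra hcon
        push Not at hcon
        have a2 := d3s_m_near (t := 19 / 200) (b := b) (k := j - 1) (by linarith)
        by_cases h0 : round (gam ^ (j - 1) * (b : ℝ)) = 0
        · unfold d3s_m at a2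
          rw [h0] at a2
          simp only [Int.cast_zero, abs_zero] at a2
          linarith [a2.1]
        · have a3 : 1 ≤ d3s_m b (j - 1) := by
            unfold d3s_m
            rw [← Int.cast_abs]
            exact_mod_cast Int.one_le_abs h0
          unfold dz at hcon
          have a4 := abs_sub_abs_le_abs_sub ((round (gam ^ (j - 1) * (b : ℝ)) : ℤ) : ℝ) (gam ^ (j - 1) * (b : ℝ))
          rw [abs_sub_comm, d3s_abs] at a4
          unfold d3s_m at a3
          linarith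
      linarith
  have H1 := hH j (j - 1) (j + 1) (d3s_set1 j)
  have H1' := hH j (j + 1) (j - 1) (d3s_set3 j)
  have H0 := hH (j - 1) j (j + 1) rfl
  have H2 := hH (j + 1) (j - 1) j (d3s_set2 j)
  have k1 := H1.2.2.2
  rw [d1] at k1
  have k2 := H2.2.2.2
  rw [d2] at k2
  have k0 := H0.2.2.2
  have k3 : 618 / 1000 * g ≤ gam * g := mul_le_mul_of_nonneg_right hgam.1.le gp.le
  have key := d3s_small ht gp htg hd k1 (le_trans (by linarith) k2) (le_trans (by linarith) k0) H1'.2.1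
  rw [div_le_iff₀ gp]
  have e4 : 13 / 100 * t ^ 4 * (1 / g ^ 4) * g = 13 / 100 * t ^ 4 / g ^ 3 := by
    field_simp
  rw [e4, le_div_iff₀ (by positivity)]
  have a1 : (1 + gam ^ (2 * j)) * (d * g ^ 3) ≤ 1382 / 1000 * (9 / 100 * t ^ 4) :=
    mul_le_mul G1 key (by positivity) (by norm_num)
  have a2 : 0 ≤ t ^ 4 := by positivity
  calc (1 + gam ^ (2 * j)) * d * g ^ 3 = (1 + gam ^ (2 * j)) * (d * g ^ 3) := by ring
    _ ≤ 1382 / 1000 * (9 / 100 * t ^ 4) := a1
    _ ≤ _ := by linarith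

theorem d3s_w {d e gk gj q t c r G : ℝ} (hd : 0 ≤ d) (he : 0 < e) (hgj : 0 < gj) (hr : 0 < r)
    (hgk : gk = r * gj) (hq : 0 < q) (hG : G ≤ 1382 / 1000) (h : d * e * q ≤ 502 / 1000 * t ^ 2)
    (hc : 1382 / 1000 * (502 / 1000) * r ≤ c * q) : G * d / gj ≤ c * (t ^ 2 * (1 / (e * gk))) := by
  have key : G * (d * e) * r ≤ c * t ^ 2 := by
    refine le_of_mul_le_mul_right ?_ hq
    have a1 : G * (d * e * q) ≤ 1382 / 1000 * (502 / 1000 * t ^ 2) := by
      have a0 : 0 ≤ d * e * q := by positivity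
      calc G * (d * e * q) ≤ 1382 / 1000 * (d * e * q) := mul_le_mul_of_nonneg_right hG a0
        _ ≤ _ := mul_le_mul_of_nonneg_left h (by norm_num)
    have a2 := mul_le_mul_of_nonneg_right a1 hr.le
    have a3 := mul_le_mul_of_nonneg_right hc (sq_nonneg t)
    calc G * (d * e) * r * q = G * (d * e * q) * r := by ring
      _ ≤ 1382 / 1000 * (502 / 1000 * t ^ 2) * r := a2
      _ = 1382 / 1000 * (502 / 1000) * r * t ^ 2 := by ring
      _ ≤ c * q * t ^ 2 := a3
      _ = _ := by ring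
  rw [hgk, div_le_iff₀ hgj]
  have e1 : c * (t ^ 2 * (1 / (e * (r * gj)))) * gj = c * t ^ 2 / (e * r) := by
    field_simp
  rw [e1, le_div_iff₀ (by positivity)]
  linarith

/-- the summation lemma -/
theorem st_D3s (h3a : ST_D3a) (h3b : ST_D3b) : ST_D3s := by
  classical
  obtain ⟨t0, ht0p, h3b⟩ := h3b
  refine ⟨min t0 (1 / 10000), lt_min ht0p (by norm_num), ?_⟩
  intro t b N d S ht htt hb hN hd hS
  have ht0 : t ≤ t0 := htt.trans (min_le_left _ _)
  have ht1 : t ≤ 1 / 10000 := htt.trans (min_le_right _ _)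
  have g0 := d3s_gpos
  have g1 := d3s_g1
  have hgam := d3s_gam
  have hphi : phi < 161805 / 100000 ∧ 1618 / 1000 < phi := by
    rw [d3s_phi]
    constructor <;> linarith
  have hB : 1 ≤ |(b : ℝ)| := by
    rw [← Int.cast_abs]
    exact_mod_cast Int.one_le_abs hb
  have hBp : 0 < |(b : ℝ)| := by linarith
  have gpos : ∀ j, 0 < |(b : ℝ)| * gam ^ j := fun j => by positivity
  have mono : ∀ j, j ≤ N → |(b : ℝ)| * gam ^ N ≤ |(b : ℝ)| * gam ^ j := fun j hj =>
    mul_le_mul_of_nonneg_left (pow_le_pow_of_le_one g0.le g1.le hj) hBp.le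
  have hst : Real.sqrt t ^ 2 = t := Real.sq_sqrt ht.le
  have hs0 : 0 ≤ Real.sqrt t := Real.sqrt_nonneg t
  have htg : ∀ j, j ≤ N → t ≤ |(b : ℝ)| * gam ^ j / 100 := by
    intro j hj
    have a1 : Real.sqrt t ≤ 1 / 100 := by
      rw [Real.sqrt_le_left (by norm_num)]
      norm_num
      linarith
    have a2 := hN.trans (mono j hj)
    calc t = Real.sqrt t * Real.sqrt t := (Real.mul_self_sqrt ht.le).symm
      _ ≤ |(b : ℝ)| * gam ^ j * (1 / 100) := mul_le_mul a2 a1 hs0 (gpos j).le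
      _ = _ := by ring
  set Bd := (range (N + 2)).filter (fun k => d3s_B t b k) with hBd
  set T : ℕ → ℝ := fun k => t ^ 2 * (1 / (d3s_e b k * (|(b : ℝ)| * gam ^ k))) with hT
  have hBdm : ∀ k ∈ Bd, d3s_B t b k := fun k hk => (mem_filter.1 hk).2
  have hTnn : ∀ k ∈ Bd, 0 ≤ T k := by
    intro k hk
    obtain ⟨a1, a2, _⟩ := hBdm k hk
    have := d3s_e_pos ht1 a1 a2
    have := gpos k
    show 0 ≤ t ^ 2 * (1 / (d3s_e b k * (|(b : ℝ)| * gam ^ k)))
    positivity
  set K : ℝ := 1 / (20 * t) with hK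
  have Kp : 0 < K := by positivity
  have hnear : ∀ j, |(b : ℝ)| * gam ^ j < K ↔ t * (|(b : ℝ)| * gam ^ j) < 1 / 20 := by
    intro j
    rw [hK, lt_div_iff₀ (by positivity)]
    constructor <;> intro h <;> linarith
  set E : ℕ → ℝ := fun j => ∑ k ∈ Bd, ((if k = j + 1 then 353 / 1000 * T k else 0) +
    (if k = j then 54 / 100 * T k else 0) + (if k + 1 = j then 1065 / 1000 * T k else 0)) with hE
  have hE0 : ∀ j, ∀ k ∈ Bd, 0 ≤ ((if k = j + 1 then 353 / 1000 * T k else 0) +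
    (if k = j then 54 / 100 * T k else 0) + (if k + 1 = j then 1065 / 1000 * T k else 0)) := by
    intro j k hk
    have := hTnn k hk
    have a1 : 0 ≤ (if k = j + 1 then 353 / 1000 * T k else 0) := by
      split_ifs <;> positivity
    have a2 : 0 ≤ (if k = j then 54 / 100 * T k else 0) := by
      split_ifs <;> positivity
    have a3 : 0 ≤ (if k + 1 = j then 1065 / 1000 * T k else 0) := by
      split_ifs <;> positivity
    positivity
  have hEnn : ∀ j, 0 ≤ E j := fun j => sum_nonneg (hE0 j)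
  have hEle : ∀ j, ∀ k ∈ Bd, ((if k = j + 1 then 353 / 1000 * T k else 0) +
    (if k = j then 54 / 100 * T k else 0) + (if k + 1 = j then 1065 / 1000 * T k else 0)) ≤ E j :=
    fun j k hk => single_le_sum (f := fun k => ((if k = j + 1 then 353 / 1000 * T k else 0) +
    (if k = j then 54 / 100 * T k else 0) + (if k + 1 = j then 1065 / 1000 * T k else 0))) (hE0 j) hk
  -- pointwise bound
  have key : ∀ j ∈ Icc 1 N, (1 + gam ^ (2 * j)) * d j / (|(b : ℝ)| * gam ^ j) ≤
      101 / 100 * t * (if |(b : ℝ)| * gam ^ j < K then 0 else (1 + gam ^ (2 * j)) / (|(b : ℝ)| * gam ^ j)) +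
      1106 / 100 * t ^ 3 * (if |(b : ℝ)| * gam ^ j < K then |(b : ℝ)| * gam ^ j else 0) +
      13 / 100 * t ^ 4 * (1 / (|(b : ℝ)| * gam ^ j) ^ 4) + E j := by
    intro j hj
    rw [mem_Icc] at hj
    obtain ⟨hd0, hd1⟩ := hd j hj.1 hj.2
    obtain ⟨G0, G1⟩ := d3s_G hj.1
    have gp := gpos j
    have hC : 0 ≤ 13 / 100 * t ^ 4 * (1 / (|(b : ℝ)| * gam ^ j) ^ 4) := by positivity
    by_cases hn : |(b : ℝ)| * gam ^ j < K
    · rw [if_pos hn, if_pos hn, mul_zero, zero_add]
      have hn' := (hnear j).1 hn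
      have hH : d3s_H t b S j (d j) := hS j hj.1 hj.2 hn'
      by_cases hg : |(b : ℝ)| * gam ^ j < 1 / 2
      · have := d3s_pt2 ht hj.1 hd0 hH hg (htg j hj.2)
        have h1 : 0 ≤ 1106 / 100 * t ^ 3 * (|(b : ℝ)| * gam ^ j) := by positivity
        linarith [hEnn j]
      · push Not at hg
        have e2 : |(b : ℝ)| * gam ^ (j + 1) = gam * (|(b : ℝ)| * gam ^ j) := by
          rw [pow_succ]
          ring
        have e0 : |(b : ℝ)| * gam ^ (j - 1) = phi * (|(b : ℝ)| * gam ^ j) := by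
          obtain ⟨i, rfl⟩ : ∃ i, j = i + 1 := ⟨j - 1, by omega⟩
          rw [Nat.add_sub_cancel, pow_succ]
          linear_combination (-(|(b : ℝ)| * gam ^ i)) * d3s_gp
        by_cases hb1 : dz (gam ^ (j + 1) * b) < 2 * t ∧ 1 / 2 ≤ |(b : ℝ)| * gam ^ (j + 1)
        · obtain ⟨a1, a2⟩ := hb1
          have a3 : t * (|(b : ℝ)| * gam ^ (j + 1)) ≤ 30903 / 1000000 := by
            rw [e2]
            have := mul_le_mul hgam.2.le hn'.le (by positivity) (by norm_num)
            linarith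
          have hk : j + 1 ∈ Bd := mem_filter.2 ⟨mem_range.2 (by omega), a1, a2, by linarith⟩
          have ep := d3s_e_pos ht1 a1 a2
          have te := d3s_te (c := 85 / 1000) ht ht1 a1 a2 a3 (by norm_num)
          have nb := (d3s_nb a1 ht).2.2 j rfl
          have H1 := hH j (j - 1) (j + 1) (d3s_set1 j)
          have a5 := d3s_bad (k := 324 / 100) (q := 1218 / 1000) hd0 te ep.le (by norm_num)
            (le_trans (by linarith) H1.2.2.2) (by norm_num) H1.1
          have a6 := d3s_w (c := 353 / 1000) hd0 ep gp g0 e2 (by norm_num) G1 a5 (by linarith)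
          have a7 := hEle j (j + 1) hk
          rw [if_pos rfl, if_neg (by omega), if_neg (by omega), add_zero, add_zero] at a7
          have a8 : (1 + gam ^ (2 * j)) * d j / (|(b : ℝ)| * gam ^ j) ≤ E j := a6.trans a7
          have h1 : 0 ≤ 1106 / 100 * t ^ 3 * (|(b : ℝ)| * gam ^ j) := by positivity
          linarith
        · by_cases hb2 : dz (gam ^ j * b) < 2 * t
          · have hk : j ∈ Bd := mem_filter.2 ⟨mem_range.2 (by omega), hb2, hg, by linarith⟩
            have ep := d3s_e_pos ht1 hb2 hg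
            have te := d3s_te (c := 137 / 1000) ht ht1 hb2 hg hn'.le (by norm_num)
            have nb := (d3s_nb hb2 ht).1
            have H1 := hH (j + 1) (j - 1) j (d3s_set2 j)
            have a5 := d3s_bad (k := 124 / 100) (q := 1288 / 1000) hd0 te ep.le (by norm_num)
              (le_trans (by linarith) H1.2.2.2) (by norm_num) H1.1
            have a6 := d3s_w (r := 1) (c := 54 / 100) hd0 ep gp one_pos (one_mul _).symm (by norm_num) G1 a5
              (by norm_num)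
            have a7 := hEle j j hk
            rw [if_neg (by omega), if_pos rfl, if_neg (by omega), add_zero, zero_add] at a7
            have a8 : (1 + gam ^ (2 * j)) * d j / (|(b : ℝ)| * gam ^ j) ≤ E j := a6.trans a7
            have h1 : 0 ≤ 1106 / 100 * t ^ 3 * (|(b : ℝ)| * gam ^ j) := by positivity
            linarith
          · push Not at hb2
            by_cases hb3 : dz (gam ^ (j - 1) * b) < 2 * t
            · have hg3 : 1 / 2 ≤ |(b : ℝ)| * gam ^ (j - 1) := by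
                rw [e0]
                have := mul_le_mul_of_nonneg_right (by linarith : 1 ≤ phi) gp.le
                linarith
              have a3 : t * (|(b : ℝ)| * gam ^ (j - 1)) ≤ 80903 / 1000000 := by
                rw [e0]
                have := mul_le_mul hphi.1.le hn'.le (by positivity) (by norm_num)
                linarith
              have hk : j - 1 ∈ Bd := mem_filter.2 ⟨mem_range.2 (by omega), hb3, hg3, by linarith⟩
              have ep := d3s_e_pos ht1 hb3 hg3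
              have te := d3s_te (c := 222 / 1000) ht ht1 hb3 hg3 a3 (by norm_num)
              have nb := (d3s_nb hb3 ht).2.1
              have ej : j - 1 + 2 = j + 1 := by omega
              rw [ej] at nb
              have H1 := hH (j + 1) (j - 1) j (d3s_set2 j)
              have a5 := d3s_bad (k := 77 / 100) (q := 1056 / 1000) hd0 te ep.le (by norm_num)
                (le_trans (by linarith) H1.2.2.2) (by norm_num) H1.1
              have a6 := d3s_w (c := 1065 / 1000) hd0 ep gp (by linarith : 0 < phi) e0 (by norm_num) G1 a5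
                (by linarith)
              have a7 := hEle j (j - 1) hk
              rw [if_neg (by omega), if_neg (by omega), if_pos (by omega), add_zero, zero_add] at a7
              have a8 : (1 + gam ^ (2 * j)) * d j / (|(b : ℝ)| * gam ^ j) ≤ E j := a6.trans a7
              have h1 : 0 ≤ 1106 / 100 * t ^ 3 * (|(b : ℝ)| * gam ^ j) := by positivity
              linarith
            · push Not at hb3
              have hb1' : 2 * t ≤ dz (gam ^ (j + 1) * b) := by
                by_contra hcon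
                push Not at hcon
                have h4 : |(b : ℝ)| * gam ^ (j + 1) < 1 / 2 := by
                  by_contra h5
                  push Not at h5
                  exact hb1 ⟨hcon, h5⟩
                rw [d3s_dz_small (by rw [d3s_abs]; exact h4.le), d3s_abs, e2] at hcon
                have := mul_le_mul hgam.1.le hg (by norm_num) g0.le
                linarith
              have := d3s_pt1 h3a ht ht1 hj.1 hd0 hH hg hn' hb3 hb2 hb1'
              linarith [hEnn j]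
    · rw [if_neg hn, if_neg hn, mul_zero, add_zero]
      have a1 : (1 + gam ^ (2 * j)) * d j / (|(b : ℝ)| * gam ^ j) ≤
          101 / 100 * t * ((1 + gam ^ (2 * j)) / (|(b : ℝ)| * gam ^ j)) := by
        rw [← mul_div_assoc]
        refine div_le_div_of_nonneg_right ?_ gp.le
        have := mul_le_mul_of_nonneg_left hd1 G0
        linarith
      linarith [hEnn j]
  have hsum := sum_le_sum key
  rw [sum_add_distrib, sum_add_distrib, sum_add_distrib, ← mul_sum, ← mul_sum, ← mul_sum] at hsum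
  -- the four sums
  have sA := d3s_sumA hBp Kp N
  have sB := d3s_sumB hBp Kp N
  have sC := d3s_sumC hBp N
  have tA : 101 / 100 * t * ∑ j ∈ Icc 1 N, (if |(b : ℝ)| * gam ^ j < K then 0 else
      (1 + gam ^ (2 * j)) / (|(b : ℝ)| * gam ^ j)) ≤ 529 / 10 * t ^ 2 := by
    have a1 := mul_le_mul_of_nonneg_left sA (by positivity : 0 ≤ 101 / 100 * t)
    have e : 101 / 100 * t * (26181 / 10000 / K) = 101 / 100 * (26181 / 10000) * 20 * t ^ 2 := by
      rw [hK]
      field_simp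
    rw [e] at a1
    have a2 : 0 ≤ t ^ 2 := by positivity
    linarith
  have tB : 1106 / 100 * t ^ 3 * ∑ j ∈ Icc 1 N, (if |(b : ℝ)| * gam ^ j < K then |(b : ℝ)| * gam ^ j else 0) ≤
      145 / 100 * t ^ 2 := by
    have a1 := mul_le_mul_of_nonneg_left sB (by positivity : 0 ≤ 1106 / 100 * t ^ 3)
    have e : 1106 / 100 * t ^ 3 * (26181 / 10000 * K) = 1106 / 100 * (26181 / 10000) / 20 * t ^ 2 := by
      rw [hK]
      field_simp
    rw [e] at a1
    have a2 : 0 ≤ t ^ 2 := by positivity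
    linarith
  have tC : 13 / 100 * t ^ 4 * ∑ j ∈ Icc 1 N, 1 / (|(b : ℝ)| * gam ^ j) ^ 4 ≤ 16 / 100 * t ^ 2 := by
    have a1 := mul_le_mul_of_nonneg_left sC (by positivity : 0 ≤ 13 / 100 * t ^ 4)
    have a2 : t ^ 2 ≤ (|(b : ℝ)| * gam ^ N) ^ 4 := by
      have := pow_le_pow_left₀ hs0 hN 4
      have e : Real.sqrt t ^ 4 = t ^ 2 := by
        calc Real.sqrt t ^ 4 = (Real.sqrt t ^ 2) ^ 2 := by ring
          _ = _ := by rw [hst]
      rwa [e] at this
    have a3 : 12 / 10 / (|(b : ℝ)| * gam ^ N) ^ 4 ≤ 12 / 10 / t ^ 2 :=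
      div_le_div_of_nonneg_left (by norm_num) (by positivity) a2
    have a4 := mul_le_mul_of_nonneg_left a3 (by positivity : 0 ≤ 13 / 100 * t ^ 4)
    have e : 13 / 100 * t ^ 4 * (12 / 10 / t ^ 2) = 156 / 1000 * t ^ 2 := by
      field_simp
      norm_num
    rw [e] at a4
    have a5 : 0 ≤ t ^ 2 := by positivity
    linarith
  have tE : ∑ j ∈ Icc 1 N, E j ≤ 68 / 10 * t ^ 2 := by
    have a1 : ∑ j ∈ Icc 1 N, E j ≤ ∑ k ∈ Bd, 1958 / 1000 * T k := by
      rw [hE, sum_comm]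
      refine sum_le_sum fun k hk => ?_
      rw [sum_add_distrib, sum_add_distrib]
      have hk0 := hTnn k hk
      have b1 : ∑ j ∈ Icc 1 N, (if k = j + 1 then 353 / 1000 * T k else 0) ≤ 353 / 1000 * T k :=
        d3s_sum_ite (p := fun j => k = j + 1) (by positivity) (fun i j h1 h2 => by omega)
      have b2 : ∑ j ∈ Icc 1 N, (if k = j then 54 / 100 * T k else 0) ≤ 54 / 100 * T k :=
        d3s_sum_ite (p := fun j => k = j) (by positivity) (fun i j h1 h2 => by omega)
      have b3 : ∑ j ∈ Icc 1 N, (if k + 1 = j then 1065 / 1000 * T k else 0) ≤ 1065 / 1000 * T k :=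
        d3s_sum_ite (p := fun j => k + 1 = j) (by positivity) (fun i j h1 h2 => by omega)
      linarith
    refine a1.trans ?_
    have a2 : ∑ k ∈ Bd, 1958 / 1000 * T k = 1958 / 1000 * t ^ 2 *
        ∑ k ∈ Bd, 1 / (d3s_e b k * (|(b : ℝ)| * gam ^ k)) := by
      rw [mul_sum]
      refine sum_congr rfl fun k _ => ?_
      rw [hT]
      ring
    rw [a2]
    have a5 : 0 ≤ t ^ 2 := by positivity
    rcases d3s_sumBad t0 h3b ht ht0 ht1 b Bd hBdm with h | ⟨a, ha, _, h⟩
    · rw [h, sum_empty, mul_zero]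
      positivity
    · have hma := (d3s_m_one ht1 (hBdm a ha).1 (hBdm a ha).2.1).2
      have h1 : 0 ≤ 1 / d3s_m b a := by positivity
      have h2 : ∑ k ∈ Bd, 1 / (d3s_e b k * (|(b : ℝ)| * gam ^ k)) ≤ 34708 / 10000 := by linarith
      have h3 := mul_le_mul_of_nonneg_left h2 (by positivity : 0 ≤ 1958 / 1000 * t ^ 2)
      linarith
  have t2 : 0 ≤ t ^ 2 := by positivity
  refine ⟨by linarith, fun hb10 => ?_⟩
  have hall : ∀ j ∈ Icc 1 N, (if |(b : ℝ)| * gam ^ j < K then 0 else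
      (1 + gam ^ (2 * j)) / (|(b : ℝ)| * gam ^ j)) = 0 := by
    intro j _
    rw [if_pos]
    rw [hnear]
    have a1 : gam ^ j ≤ 1 := pow_le_one₀ g0.le g1.le
    have a2 : |(b : ℝ)| * gam ^ j ≤ 10 * 1 := mul_le_mul hb10 a1 (by positivity) (by norm_num)
    have a3 := mul_le_mul ht1 a2 (gpos j).le (by norm_num)
    linarith
  rw [sum_congr rfl hall, sum_const_zero, mul_zero] at hsum
  linarith

end

end Pool.Agent.Helper36.CV
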