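import Pool.Agent.Helper36.CV.StmtsO

/-! # O3a: sums of spectra are contained in the spectrum (product test functions) -/

set_option autoImplicit false

namespace Pool.Agent.Helper36.CV

open Filter Topology Pointwise

theorem o3a_sm {ι : Type} {f : ι → ℂ} (hf : f.support.Finite) : Summable fun k => ‖f k‖ ^ 2 := by
  apply summable_of_hasFiniteSupport
  apply hf.subset
  intro k hk
  rw [Function.mem_support] at hk ⊢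
  intro h
  apply hk
  rw [h]
  simp

theorem o3a_hop_supp {l E : ℝ} {u : ℤ → ℂ} (hu : u.support.Finite) :
    (fun k => hop l u k - (E : ℂ) * u k).support.Finite := by
  have h1 : ((fun k : ℤ => k - 1) '' u.support).Finite := hu.image _
  have h2 : ((fun k : ℤ => k + 1) '' u.support).Finite := hu.image _
  apply ((h1.union h2).union hu).subset
  intro k hk
  rw [Function.mem_support] at hk
  by_contra hcon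
  apply hk
  have e1 : u (k + 1) = 0 := by
    by_contra h
    exact hcon (Or.inl (Or.inl ⟨k + 1, h, by ring⟩))
  have e2 : u (k - 1) = 0 := by
    by_contra h
    exact hcon (Or.inl (Or.inr ⟨k - 1, h, by ring⟩))
  have e3 : u k = 0 := by
    by_contra h
    exact hcon (Or.inr h)
  unfold hop
  rw [e1, e2, e3]
  simp

theorem o3a_pos {ι : Type} {f : ι → ℂ} (hf : f.support.Finite) (h0 : f ≠ 0) :
    0 < ∑' k, ‖f k‖ ^ 2 := by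
  obtain ⟨k, hk⟩ := Function.ne_iff.1 h0
  have h1 : 0 < ‖f k‖ ^ 2 := by
    have : f k ≠ 0 := hk
    positivity
  exact lt_of_lt_of_le h1 ((o3a_sm hf).le_tsum k (fun j _ => by positivity))

theorem o3a_norm (ψ : L22) : ‖ψ‖ ^ 2 = ∑' p, ‖ψ p‖ ^ 2 := by
  have h := lp.norm_rpow_eq_tsum (p := 2) (by norm_num) ψ
  simp only [ENNReal.toReal_ofNat, Real.rpow_ofNat] at h
  exact h

theorem o3a_ind (l : ℝ) (k : ℤ) : (Set.Ico (1 - (Real.sqrt 5 - 1) / 2) 1).indicator (fun _ => l)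
    (Int.fract ((k : ℝ) * ((Real.sqrt 5 - 1) / 2))) = l * vv k := by
  unfold vv
  rw [Set.indicator_apply, Set.indicator_apply]
  split_ifs <;> simp

theorem o3a_prod {f g : ℤ → ℂ} (hf : f.support.Finite) (hg : g.support.Finite) :
    (fun p : ℤ × ℤ => ‖f p.1 * g p.2‖ ^ 2) = (fun p : ℤ × ℤ => ‖f p.1‖ ^ 2 * ‖g p.2‖ ^ 2) ∧
    Summable (fun p : ℤ × ℤ => ‖f p.1 * g p.2‖ ^ 2) ∧
    ∑' p : ℤ × ℤ, ‖f p.1 * g p.2‖ ^ 2 = (∑' k, ‖f k‖ ^ 2) * ∑' k, ‖g k‖ ^ 2 := by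
  have e : (fun p : ℤ × ℤ => ‖f p.1 * g p.2‖ ^ 2) =
      (fun p : ℤ × ℤ => ‖f p.1‖ ^ 2 * ‖g p.2‖ ^ 2) := by
    funext p
    rw [norm_mul, mul_pow]
  have h1 : Summable fun k => ‖‖f k‖ ^ 2‖ := (o3a_sm hf).norm
  have h2 : Summable fun k => ‖‖g k‖ ^ 2‖ := (o3a_sm hg).norm
  refine ⟨e, ?_, ?_⟩
  · rw [e]
    exact summable_mul_of_summable_norm (f := fun k => ‖f k‖ ^ 2) (g := fun k => ‖g k‖ ^ 2) h1 h2
  · rw [e, tsum_mul_tsum_of_summable_norm h1 h2]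

theorem o3a_sq (a b : ℂ) : ‖a + b‖ ^ 2 ≤ 2 * ‖a‖ ^ 2 + 2 * ‖b‖ ^ 2 := by
  have h := norm_add_le a b
  have h0 := norm_nonneg (a + b)
  nlinarith [sq_nonneg (‖a‖ - ‖b‖), norm_nonneg a, norm_nonneg b]

theorem st_O3a (hO10 : ST_O10) : ST_O3a := by
  intro l1 l2 T h1 h2 hT hTH hh1 hH1 hh2 hH2 x hx
  obtain ⟨a, ha, b, hb, rfl⟩ := Set.mem_add.1 hx
  have hAa := (hO10 l1 h1 hh1 hH1 a).1 ha
  have hAb := (hO10 l2 h2 hh2 hH2 b).1 hb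
  by_contra hcon
  have hcon' : (((a + b : ℝ)) : ℂ) ∉ spectrum ℂ T := hcon
  rw [spectrum.notMem_iff] at hcon'
  obtain ⟨R, hR⟩ := hcon'.exists_left_inv
  -- bounded below
  have hbelow : ∀ ψ : L22, ‖ψ‖ ≤ ‖R‖ * ‖T ψ - (((a + b : ℝ)) : ℂ) • ψ‖ := by
    intro ψ
    have e : ψ = R ((((a + b : ℝ)) : ℂ) • ψ - T ψ) := by
      have := congrArg (fun S : L22 →L[ℂ] L22 => S ψ) hR
      simpa [add_smul] using this.symm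
    calc ‖ψ‖ = ‖R ((((a + b : ℝ)) : ℂ) • ψ - T ψ)‖ := congrArg norm e
      _ ≤ ‖R‖ * ‖(((a + b : ℝ)) : ℂ) • ψ - T ψ‖ := R.le_opNorm _
      _ = ‖R‖ * ‖T ψ - (((a + b : ℝ)) : ℂ) • ψ‖ := by rw [norm_sub_rev]
  set δ : ℝ := 1 / (8 * (‖R‖ ^ 2 + 1)) with hδ
  have hδ0 : 0 < δ := by positivity
  obtain ⟨u1, hs1, hn1, hu1⟩ := hAa δ hδ0
  obtain ⟨u2, hs2, hn2, hu2⟩ := hAb δ hδ0
  obtain ⟨-, hps, hpt⟩ := o3a_prod hs1 hs2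
  have hmem : Memℓp (fun p : ℤ × ℤ => u1 p.1 * u2 p.2) 2 := by
    apply memℓp_gen
    simpa using hps
  set ψ : L22 := ⟨fun p : ℤ × ℤ => u1 p.1 * u2 p.2, hmem⟩ with hψ
  have hψp : ∀ p : ℤ × ℤ, ψ p = u1 p.1 * u2 p.2 := fun p => rfl
  have hN1 := o3a_pos hs1 hn1
  have hN2 := o3a_pos hs2 hn2
  have hψn : ‖ψ‖ ^ 2 = (∑' k, ‖u1 k‖ ^ 2) * ∑' k, ‖u2 k‖ ^ 2 := by
    rw [o3a_norm, ← hpt]
  have hf1 := o3a_hop_supp (l := l1) (E := a) hs1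
  have hf2 := o3a_hop_supp (l := l2) (E := b) hs2
  obtain ⟨-, hps1, hpt1⟩ := o3a_prod hf1 hs2
  obtain ⟨-, hps2, hpt2⟩ := o3a_prod hs1 hf2
  have hval : ∀ p : ℤ × ℤ, (T ψ - (((a + b : ℝ)) : ℂ) • ψ : L22) p =
      (hop l1 u1 p.1 - (a : ℂ) * u1 p.1) * u2 p.2 + u1 p.1 * (hop l2 u2 p.2 - (b : ℂ) * u2 p.2) := by
    intro p
    have e1 : (T ψ - (((a + b : ℝ)) : ℂ) • ψ : L22) p = T ψ p - (((a + b : ℝ)) : ℂ) * ψ p := rfl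
    rw [e1, hTH ψ p, o3a_ind, o3a_ind]
    simp only [hψp]
    unfold hop
    push_cast
    ring
  have hle : ‖T ψ - (((a + b : ℝ)) : ℂ) • ψ‖ ^ 2 ≤ 4 * δ * ‖ψ‖ ^ 2 := by
    rw [o3a_norm]
    have hsum : Summable fun p : ℤ × ℤ =>
        2 * ‖(hop l1 u1 p.1 - (a : ℂ) * u1 p.1) * u2 p.2‖ ^ 2 +
          2 * ‖u1 p.1 * (hop l2 u2 p.2 - (b : ℂ) * u2 p.2)‖ ^ 2 :=
      (hps1.mul_left 2).add (hps2.mul_left 2)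
    have hle1 : ∀ p : ℤ × ℤ, ‖(T ψ - (((a + b : ℝ)) : ℂ) • ψ : L22) p‖ ^ 2 ≤
        2 * ‖(hop l1 u1 p.1 - (a : ℂ) * u1 p.1) * u2 p.2‖ ^ 2 +
          2 * ‖u1 p.1 * (hop l2 u2 p.2 - (b : ℂ) * u2 p.2)‖ ^ 2 := by
      intro p
      rw [hval p]
      exact o3a_sq _ _
    have hsum' : Summable fun p : ℤ × ℤ => ‖(T ψ - (((a + b : ℝ)) : ℂ) • ψ : L22) p‖ ^ 2 :=
      Summable.of_nonneg_of_le (fun p => by positivity) hle1 hsum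
    calc ∑' p : ℤ × ℤ, ‖(T ψ - (((a + b : ℝ)) : ℂ) • ψ : L22) p‖ ^ 2
        ≤ ∑' p : ℤ × ℤ, (2 * ‖(hop l1 u1 p.1 - (a : ℂ) * u1 p.1) * u2 p.2‖ ^ 2 +
          2 * ‖u1 p.1 * (hop l2 u2 p.2 - (b : ℂ) * u2 p.2)‖ ^ 2) := hsum'.tsum_le_tsum hle1 hsum
      _ = 2 * ((∑' k, ‖hop l1 u1 k - (a : ℂ) * u1 k‖ ^ 2) * ∑' k, ‖u2 k‖ ^ 2) +
          2 * ((∑' k, ‖u1 k‖ ^ 2) * ∑' k, ‖hop l2 u2 k - (b : ℂ) * u2 k‖ ^ 2) := by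
        rw [(hps1.mul_left 2).tsum_add (hps2.mul_left 2), tsum_mul_left, tsum_mul_left, hpt1, hpt2]
      _ ≤ 2 * ((δ * ∑' k, ‖u1 k‖ ^ 2) * ∑' k, ‖u2 k‖ ^ 2) +
          2 * ((∑' k, ‖u1 k‖ ^ 2) * (δ * ∑' k, ‖u2 k‖ ^ 2)) := by
        gcongr
      _ = 4 * δ * ‖ψ‖ ^ 2 := by
        rw [hψn]
        ring
  have hb1 := hbelow ψ
  have hψ0 : 0 < ‖ψ‖ ^ 2 := by
    rw [hψn]
    positivity
  have hb2 : ‖ψ‖ ^ 2 ≤ ‖R‖ ^ 2 * (4 * δ * ‖ψ‖ ^ 2) := by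
    calc ‖ψ‖ ^ 2 ≤ (‖R‖ * ‖T ψ - (((a + b : ℝ)) : ℂ) • ψ‖) ^ 2 := by
          gcongr
      _ = ‖R‖ ^ 2 * ‖T ψ - (((a + b : ℝ)) : ℂ) • ψ‖ ^ 2 := by ring
      _ ≤ ‖R‖ ^ 2 * (4 * δ * ‖ψ‖ ^ 2) := by gcongr
  have hb3 : ‖R‖ ^ 2 * (4 * δ * ‖ψ‖ ^ 2) ≤ ‖ψ‖ ^ 2 / 2 := by
    have e : ‖R‖ ^ 2 * (4 * δ * ‖ψ‖ ^ 2) = (‖R‖ ^ 2 / (‖R‖ ^ 2 + 1)) * (‖ψ‖ ^ 2 / 2) := by
      rw [hδ]
      field_simp
      ring
    rw [e]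
    have : ‖R‖ ^ 2 / (‖R‖ ^ 2 + 1) ≤ 1 := by
      rw [div_le_one (by positivity)]
      linarith
    calc (‖R‖ ^ 2 / (‖R‖ ^ 2 + 1)) * (‖ψ‖ ^ 2 / 2) ≤ 1 * (‖ψ‖ ^ 2 / 2) := by gcongr
      _ = ‖ψ‖ ^ 2 / 2 := one_mul _
  linarith

end Pool.Agent.Helper36.CV
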